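import Mathlib

set_option autoImplicit false

namespace Pool.Agent.Results.MP_fef6c2_gt.Exterior

open Set Filter Topology Complex
open scoped Real

/-- Every continuous injection of `X` into the plane is a homeomorphism onto its image. -/
def InjectivelyRigid (X : Set (EuclideanSpace ℝ (Fin 2))) : Prop :=
  ∀ f : X → EuclideanSpace ℝ (Fin 2), Continuous f → Function.Injective f → IsEmbedding f

lemma lift (H : ℝ × ℝ → ℂ) (hH : Continuous H) (h0 : ∀ p, H p ≠ 0) :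
    ∃ L : ℝ × ℝ → ℂ, Continuous L ∧ ∀ p, exp (L p) = H p := by
  obtain ⟨F, ⟨-, hF⟩, -⟩ := isCoveringMap_exp.existsUnique_continuousMap_lifts
    (⟨fun p => ⟨H p, h0 p⟩, hH.subtype_mk _⟩ : C(ℝ × ℝ, {z : ℂ // z ≠ 0})) 0 (log (H 0))
    (Subtype.ext (exp_log (h0 0)))
  exact ⟨F, F.continuous, fun p => congrArg Subtype.val (congrFun hF p)⟩

lemma const {A : Type} [TopologicalSpace A] [PreconnectedSpace A] (u : A → ℂ)
    (hu : Continuous u) (c : ℂ) (h : ∀ a, exp (u a) = c) (a b : A) : u a = u b :=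
  isCoveringMap_exp.const_of_comp hu (fun a a' => Subtype.ext (by simp [h])) a b

/-- `h` has a continuous logarithm that increases by `k` over one period. -/
def IsDeg (h : ℝ → ℂ) (k : ℂ) : Prop :=
  ∃ L : ℝ → ℂ, Continuous L ∧ (∀ θ, exp (L θ) = h θ) ∧ ∀ θ, L (θ + 2 * π) = L θ + k

lemma IsDeg.unique {h : ℝ → ℂ} {k k' : ℂ} (h1 : IsDeg h k) (h2 : IsDeg h k') : k = k' := by
  obtain ⟨L, hL, e, p⟩ := h1
  obtain ⟨L', hL', e', p'⟩ := h2
  have := const (fun θ => L θ - L' θ) (hL.sub hL') 1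
    (fun θ => by rw [exp_sub, e, ← e', div_self (exp_ne_zero _)]) (0 + 2 * π) 0
  simp only [p, p'] at this
  linear_combination this

lemma IsDeg.neg {h : ℝ → ℂ} {k : ℂ} (h1 : IsDeg h k) : IsDeg (fun θ => -h θ) k := by
  obtain ⟨L, hL, e, p⟩ := h1
  refine ⟨fun θ => L θ + π * I, by fun_prop, fun θ => ?_, fun θ => ?_⟩
  · rw [exp_add, exp_pi_mul_I, e]; ring
  · simp only [p]; ring

lemma IsDeg.exp_eq {h : ℝ → ℂ} {k : ℂ} (h1 : IsDeg h k) (hp : h (0 + 2 * π) = h 0) :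
    exp k = 1 := by
  obtain ⟨L, -, e, p⟩ := h1
  rw [← e, ← e, p, exp_add] at hp
  exact mul_left_cancel₀ (exp_ne_zero (L 0)) (by rw [hp, mul_one])

lemma homotopy (H : ℝ × ℝ → ℂ) (hH : Continuous H) (h0 : ∀ p, H p ≠ 0)
    (hp : ∀ t θ, H (t, θ + 2 * π) = H (t, θ)) : ∃ k, ∀ t, IsDeg (fun θ => H (t, θ)) k := by
  obtain ⟨L, hL, e⟩ := lift H hH h0
  have := const (fun p : ℝ × ℝ => L (p.1, p.2 + 2 * π) - L p) (by fun_prop) 1
    (fun p => by rw [exp_sub, e, e, hp, div_self (h0 _)])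
  refine ⟨L (0, 0 + 2 * π) - L (0, 0), fun t => ⟨fun θ => L (t, θ), by fun_prop,
    fun θ => e _, fun θ => ?_⟩⟩
  have h := this (t, θ) (0, 0)
  simp only at h
  linear_combination h

lemma deg_eq {H : ℝ × ℝ → ℂ} (hH : Continuous H) (h0 : ∀ p, H p ≠ 0)
    (hp : ∀ t θ, H (t, θ + 2 * π) = H (t, θ)) {k : ℂ} (h : IsDeg (fun θ => H (0, θ)) k) :
    IsDeg (fun θ => H (1, θ)) k := by
  obtain ⟨k', hk⟩ := homotopy H hH h0 hp
  rw [h.unique (hk 0)]
  exact hk 1

lemma torus (G : ℝ × ℝ → ℂ) (hG : Continuous G) (h0 : ∀ p, G p ≠ 0)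
    (hp1 : ∀ θ φ, G (θ + 2 * π, φ) = G (θ, φ)) (hp2 : ∀ θ φ, G (θ, φ + 2 * π) = G (θ, φ)) :
    ∃ k l, (∀ φ, IsDeg (fun θ => G (θ, φ)) k) ∧ (∀ θ, IsDeg (fun φ => G (θ, φ)) l) ∧
      IsDeg (fun θ => G (θ, θ + π)) (k + l) := by
  obtain ⟨L, hL, e⟩ := lift G hG h0
  have c1 := const (fun p : ℝ × ℝ => L (p.1 + 2 * π, p.2) - L p) (by fun_prop) 1
    (fun p => by rw [exp_sub, e, e, hp1, div_self (h0 _)])
  have c2 := const (fun p : ℝ × ℝ => L (p.1, p.2 + 2 * π) - L p) (by fun_prop) 1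
    (fun p => by rw [exp_sub, e, e, hp2, div_self (h0 _)])
  refine ⟨L (0 + 2 * π, 0) - L (0, 0), L (0, 0 + 2 * π) - L (0, 0),
    fun φ => ⟨fun θ => L (θ, φ), by fun_prop, fun θ => e _, fun θ => ?_⟩,
    fun θ => ⟨fun φ => L (θ, φ), by fun_prop, fun φ => e _, fun φ => ?_⟩,
    ⟨fun θ => L (θ, θ + π), by fun_prop, fun θ => e _, fun θ => ?_⟩⟩
  · have h := c1 (θ, φ) (0, 0)
    simp only at h
    linear_combination h
  · have h := c2 (θ, φ) (0, 0)
    simp only at h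
    linear_combination h
  · have h := c1 (θ, θ + π + 2 * π) (0, 0)
    have h' := c2 (θ, θ + π) (0, 0)
    simp only at h h'
    beta_reduce
    rw [show θ + 2 * π + π = θ + π + 2 * π by ring]
    linear_combination h + h'

lemma odd {h : ℝ → ℂ} {k : ℂ} (h1 : IsDeg h (k + k)) (ho : ∀ θ, h (θ + π) = -h θ)
    (hk : exp k = 1) : False := by
  obtain ⟨L, hL, e, p⟩ := h1
  have he : ∀ θ, exp (L (θ + π) - L θ) = -1 := fun θ => by
    rw [exp_sub, e, ho, ← e, neg_div, div_self (exp_ne_zero _)]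
  have c := const (fun θ => L (θ + π) - L θ) (by fun_prop) (-1) he (0 + π) 0
  rw [show (0 : ℝ) + π + π = 0 + 2 * π by ring, p] at c
  have h2 : k = L (0 + π) - L 0 := by linear_combination c / 2
  have := he 0
  rw [← h2, hk] at this
  norm_num at this

/-- clamp to `[0,1]` -/
noncomputable def cl (t : ℝ) : ℝ := max 0 (min t 1)

lemma cl_cont : Continuous cl := by unfold cl; fun_prop
lemma cl0 : cl 0 = 0 := by simp [cl]
lemma cl1 : cl 1 = 1 := by simp [cl]
lemma cl_mem (t : ℝ) : 0 ≤ cl t ∧ cl t ≤ 1 := ⟨le_max_left _ _, max_le zero_le_one (min_le_right _ _)⟩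

/-- The key estimate in polar coordinates. -/
lemma key (g : ℝ × ℝ → ℂ) (hg : Continuous g) (hp : ∀ r θ, g (r, θ + 2 * π) = g (r, θ))
    (hr : ∀ r r' θ θ', 1 ≤ r → r < r' → g (r, θ) ≠ g (r', θ'))
    (ha : ∀ r r' θ, 1 ≤ r → 1 ≤ r' → g (r, θ) ≠ g (r', θ + π))
    (s r R φ ψ : ℝ) (hs : 1 ≤ s) (hsr : s < r) (hrR : r < R)
    (hc : ∀ θ, ‖g (R, ψ) - g (s, φ)‖ < ‖g (r, θ) - g (s, φ)‖) : False := by
  have hcl := cl_cont
  obtain ⟨k, l, hk, hl, hd⟩ := torus (fun p => g (R, p.1) - g (r, p.2)) (by fun_prop)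
    (fun p => sub_ne_zero.2 (hr _ _ _ _ (by linarith) hrR).symm)
    (fun θ φ => by simp only [hp]) (fun θ φ => by simp only [hp])
  have h1 : IsDeg (fun θ => g (r, θ) - g (s, φ)) k := by
    have := deg_eq (H := fun p => g (R + cl p.1 * (r - R), p.2) - g (r + cl p.1 * (s - r), φ))
      (k := k) (by fun_prop) (fun p => by
        obtain ⟨a, b⟩ := cl_mem p.1
        refine sub_ne_zero.2 (hr _ _ _ _ (by nlinarith) ?_).symm
        rcases eq_or_lt_of_le b with h | h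
        · rw [h]; linarith
        · nlinarith [mul_nonneg a (sub_pos.2 hsr).le, mul_pos (sub_pos.2 h) (sub_pos.2 hrR)])
      (fun t θ => by simp only [hp]) (by simpa [cl0] using hk φ)
    simpa [cl1] using this
  have h2 : IsDeg (fun θ => g (r, θ) - g (R, ψ)) l := by
    simpa using (hl ψ).neg
  have h3 : IsDeg (fun θ => g (r, θ) - g (R, ψ)) k := by
    have := deg_eq (H := fun p => g (r, p.2) - g (s, φ) - (cl p.1 : ℂ) * (g (R, ψ) - g (s, φ)))
      (k := k) (by fun_prop) (fun p => by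
        obtain ⟨a, b⟩ := cl_mem p.1
        intro h
        have h' := hc p.2
        rw [sub_eq_zero.1 h, norm_mul, norm_real, Real.norm_eq_abs, abs_of_nonneg a] at h'
        nlinarith [norm_nonneg (g (R, ψ) - g (s, φ))])
      (fun t θ => by simp only [hp]) (by simpa [cl0] using h1)
    simpa [cl1] using this
  have hkl : l = k := h2.unique h3
  subst hkl
  have h4 : IsDeg (fun θ => g (r, θ) - g (r, θ + π)) (l + l) := by
    have := deg_eq (H := fun p => g (R + cl p.1 * (r - R), p.2) - g (r, p.2 + π))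
      (k := l + l) (by fun_prop) (fun p => by
        obtain ⟨a, b⟩ := cl_mem p.1
        exact sub_ne_zero.2 (ha _ _ _ (by nlinarith) (by linarith)))
      (fun t θ => by simp only [hp, show θ + 2 * π + π = θ + π + 2 * π by ring])
      (by simpa [cl0] using hd)
    simpa [cl1] using this
  refine odd h4 (fun θ => ?_) (h2.exp_eq (by simp only [hp]))
  rw [show θ + π + π = θ + 2 * π by ring, hp]
  ring

lemma far (f : {z : ℂ // 1 ≤ ‖z‖} → ℂ) (hf : Continuous f) (hi : Function.Injective f)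
    (a : {z : ℂ // 1 ≤ ‖z‖}) : ∃ δ > 0, ∀ x : {z : ℂ // 1 ≤ ‖z‖}, ‖a.1‖ + 1 < ‖x.1‖ →
      δ ≤ ‖f x - f a‖ := by
  have hn : ∀ p : ℝ × ℝ, ‖((max p.1 1 : ℝ) : ℂ) * exp (p.2 * I)‖ = max p.1 1 := fun p => by
    rw [norm_mul, norm_exp_ofReal_mul_I, mul_one, norm_real, Real.norm_eq_abs,
      abs_of_pos (lt_max_of_lt_right one_pos)]
  let c : ℝ × ℝ → {z : ℂ // 1 ≤ ‖z‖} := fun p =>
    ⟨((max p.1 1 : ℝ) : ℂ) * exp (p.2 * I), by rw [hn]; exact le_max_right _ _⟩
  have hc : Continuous c := Continuous.subtype_mk (by fun_prop) _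
  have hcx : ∀ x : {z : ℂ // 1 ≤ ‖z‖}, c (‖x.1‖, arg x.1) = x := fun x => Subtype.ext (by
    simp only [c, max_eq_left x.2]
    exact norm_mul_exp_arg_mul_I x.1)
  let g : ℝ × ℝ → ℂ := fun p => f (c p)
  have hg : Continuous g := hf.comp hc
  have hp : ∀ r θ, g (r, θ + 2 * π) = g (r, θ) := fun r θ => congrArg f (Subtype.ext (by
    simp only [c]
    push_cast
    rw [add_mul, exp_add, exp_two_pi_mul_I, mul_one]))
  have hr : ∀ r r' θ θ', 1 ≤ r → r < r' → g (r, θ) ≠ g (r', θ') := by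
    intro r r' θ θ' h1 h2 h
    have := congrArg (fun z : {z : ℂ // 1 ≤ ‖z‖} => ‖z.1‖) (hi h)
    simp only [c, hn (r, θ), hn (r', θ')] at this
    rw [max_eq_left h1, max_eq_left (by linarith)] at this
    linarith
  have ha : ∀ r r' θ, 1 ≤ r → 1 ≤ r' → g (r, θ) ≠ g (r', θ + π) := by
    intro r r' θ h1 h2 h
    have := congrArg Subtype.val (hi h)
    simp only [c, max_eq_left h1, max_eq_left h2] at this
    push_cast at this
    rw [add_mul, exp_add, exp_pi_mul_I] at this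
    have h3 : ((r + r' : ℝ) : ℂ) * exp (θ * I) = 0 := by push_cast; linear_combination this
    rcases mul_eq_zero.1 h3 with h4 | h4
    · have : r + r' = 0 := by exact_mod_cast h4
      linarith
    · exact exp_ne_zero _ h4
  obtain ⟨θ₀, -, hθ₀⟩ := (isCompact_Icc (a := 0) (b := 2 * π)).exists_isMinOn
    ⟨0, left_mem_Icc.2 (by positivity)⟩
    (f := fun θ => ‖g (‖a.1‖ + 1, θ) - g (‖a.1‖, arg a.1)‖) (by fun_prop)
  have hper : Function.Periodic (fun θ => ‖g (‖a.1‖ + 1, θ) - g (‖a.1‖, arg a.1)‖) (2 * π) :=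
    fun θ => by simp only [hp]
  refine ⟨‖g (‖a.1‖ + 1, θ₀) - g (‖a.1‖, arg a.1)‖,
    norm_pos_iff.2 (sub_ne_zero.2 (hr _ _ _ _ a.2 (by linarith)).symm), fun x hx => ?_⟩
  by_contra hlt
  refine key g hg hp hr ha ‖a.1‖ (‖a.1‖ + 1) ‖x.1‖ (arg a.1) (arg x.1) a.2 (by linarith) hx
    fun θ => ?_
  obtain ⟨θ', h1, h2⟩ := hper.exists_mem_Ico₀ (by positivity) θ
  have h3 := hθ₀ (Ico_subset_Icc_self h1)
  simp only [mem_setOf_eq] at h2 h3
  rw [h2]
  refine lt_of_lt_of_le ?_ h3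
  simp only [g, hcx] at hlt ⊢
  exact not_le.1 hlt

lemma emb (f : {z : ℂ // 1 ≤ ‖z‖} → ℂ) (hf : Continuous f) (hi : Function.Injective f) :
    IsEmbedding f := by
  refine ⟨isInducing_iff_nhds.2 fun a => le_antisymm (hf.tendsto a).le_comap fun U hU => ?_, hi⟩
  obtain ⟨δ, hδ, hfar⟩ := far f hf hi a
  obtain ⟨V, hVU, hV, haV⟩ := mem_nhds_iff.1 hU
  have hcl : IsClosed {z : ℂ | 1 ≤ ‖z‖} := isClosed_le continuous_const continuous_norm
  have hK : IsCompact ((Subtype.val ⁻¹' Metric.closedBall (0 : ℂ) (‖a.1‖ + 1) :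
      Set {z : ℂ // 1 ≤ ‖z‖}) \ V) :=
    (hcl.isClosedEmbedding_subtypeVal.isCompact_preimage (isCompact_closedBall _ _)).diff hV
  refine mem_comap.2 ⟨Metric.ball (f a) δ \ f '' _,
    (Metric.isOpen_ball.sdiff (hK.image hf).isClosed).mem_nhds ⟨Metric.mem_ball_self hδ, ?_⟩, ?_⟩
  · rintro ⟨x, hx, h⟩
    exact hx.2 (hi h ▸ haV)
  · rintro x ⟨h1, h2⟩
    by_contra hx
    refine h2 ⟨x, ⟨?_, fun h => hx (hVU h)⟩, rfl⟩
    rw [mem_preimage, mem_closedBall_zero_iff]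
    by_contra h
    have := hfar x (not_le.1 h)
    rw [Metric.mem_ball, dist_eq_norm] at h1
    linarith

/-- The closed exterior of the unit disc is locally compact, has connected complement, is
neither compact nor open, and is injectively rigid. -/
theorem result : ∃ X : Set (EuclideanSpace ℝ (Fin 2)), LocallyCompactSpace X ∧ IsConnected Xᶜ ∧
    ¬ IsCompact X ∧ ¬ IsOpen X ∧ InjectivelyRigid X := by
  have hcl : IsClosed {z : EuclideanSpace ℝ (Fin 2) | 1 ≤ ‖z‖} :=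
    isClosed_le continuous_const continuous_norm
  have hc : {z : EuclideanSpace ℝ (Fin 2) | 1 ≤ ‖z‖}ᶜ = Metric.ball 0 1 := by
    ext z
    simp
  refine ⟨{z | 1 ≤ ‖z‖}, hcl.locallyCompactSpace, ?_, fun h => ?_, fun h => ?_, fun f hf hi => ?_⟩
  · rw [hc]
    exact Metric.isConnected_ball one_pos
  · have h1 : Bornology.IsBounded (univ : Set (EuclideanSpace ℝ (Fin 2))) := by
      rw [← union_compl_self {z : EuclideanSpace ℝ (Fin 2) | 1 ≤ ‖z‖}, hc]
      exact h.isBounded.union Metric.isBounded_ball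
    exact NormedSpace.unbounded_univ ℝ _ h1
  · rcases isClopen_iff.1 ⟨hcl, h⟩ with h1 | h1
    · obtain ⟨z, hz⟩ := exists_norm_eq (EuclideanSpace ℝ (Fin 2)) zero_le_one
      have : z ∈ {z : EuclideanSpace ℝ (Fin 2) | 1 ≤ ‖z‖} := hz.ge
      rw [h1] at this
      exact this
    · have : (0 : EuclideanSpace ℝ (Fin 2)) ∈ {z : EuclideanSpace ℝ (Fin 2) | 1 ≤ ‖z‖} := by
        rw [h1]; trivial
      simp at this
      linarith
  · let e := Complex.orthonormalBasisOneI.repr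
    let φ : {z : ℂ // 1 ≤ ‖z‖} ≃ₜ {z : EuclideanSpace ℝ (Fin 2) | 1 ≤ ‖z‖} :=
      e.toHomeomorph.subtype (fun z => by simp)
    have h := emb (fun z => e.symm (f (φ z))) (by fun_prop)
      (e.symm.injective.comp (hi.comp φ.injective))
    have h2 := (e.toHomeomorph.isEmbedding.comp h).comp φ.symm.isEmbedding
    have h3 : (⇑e.toHomeomorph ∘ fun z => e.symm (f (φ z))) ∘ ⇑φ.symm = f := by
      funext x
      simp
    rw [h3] at h2
    exact h2

end Pool.Agent.Results.MP_fef6c2_gt.Exterior
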